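import Pool.Agent.helper67.TPC.Spec

/-!
# Project tpc (MP_ebc808_nt), row DAT: existence of the data
-/

set_option autoImplicit false

open Finset PowerSeries

noncomputable section

namespace Pool.Agent.TPC

open Pool.Agent.EP

theorem DAT_per (t : ℕ) (r : ℕ → ZMod 2) (hr : ∀ n, r (n + t) = r n) (n : ℕ) : ∀ k, r (n + t * k) = r n
  | 0 => rfl
  | k + 1 => by
    have : n + t * (k + 1) = (n + t * k) + t := by ring
    rw [this, hr, DAT_per t r hr n k]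

theorem DAT_WC {b b' c : ℕ} (h : b ≤ b') : WC b' c ≤ WC b c := by
  unfold WC
  refine Submodule.span_mono ?_
  rintro f ⟨j, hj, hc, hf⟩
  exact ⟨j, h.trans hj, hc, hf⟩

theorem DAT_cop6 (T u : ℕ) (hT3 : 3 ∣ T) : (u + 2 * T).Coprime 6 ↔ u.Coprime 6 := by
  obtain ⟨c, rfl⟩ := hT3
  have : u + 2 * (3 * c) = u + c * 6 := by ring
  rw [this]
  exact Nat.coprime_add_mul_right_left u 6 c

theorem DAT (hCL1 : CL1_stmt) (hLFR : LFR_stmt) (hGPR : GPR_stmt) (hKWD : KWD_stmt) : DAT_stmt := by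
  intro i a t r ht hr ⟨n, hna, hrn⟩
  have h2i : 0 < 2 ^ i := by positivity
  obtain ⟨n₀, hn₀⟩ : ∃ n₀, n₀ = n + t * 2 ^ i := ⟨_, rfl⟩
  have hn1 : 1 ≤ n₀ := by
    have : 0 < t * 2 ^ i := Nat.mul_pos ht h2i
    omega
  have hni : n₀ % 2 ^ i = a % 2 ^ i := by rw [hn₀, Nat.add_mul_mod_self_right, hna]
  have hrn₀ : r n₀ = 1 := by rw [hn₀, DAT_per t r hr n, hrn]
  obtain ⟨e, T, hTo, h24⟩ := Nat.exists_eq_two_pow_mul_odd (show 24 * t ≠ 0 by omega)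
  have hT2 : T % 2 = 1 := Nat.odd_iff.1 hTo
  have hT3 : 3 ∣ T := by
    have h1 : 3 ∣ 2 ^ e * T := by
      rw [← h24]
      exact ⟨8 * t, by ring⟩
    exact (Nat.Coprime.dvd_of_dvd_mul_left (Nat.Coprime.pow_right e (by norm_num)) h1)
  obtain ⟨s, hs⟩ : ∃ s, s = e + i + 4 := ⟨_, rfl⟩
  have hs4 : 4 ≤ s := by omega
  obtain ⟨S, μ, κ, x₀, hC⟩ := hCL1 s T (24 * n₀ - 1) hs4 hT2 hT3 (by omega)
  obtain ⟨hL, hR⟩ := hLFR i t e s T n₀ r S μ κ x₀ ht hr h24 (by omega) (by omega) hs4 hT2 hT3 hn1 hC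
  obtain ⟨hP, hV⟩ := hGPR t e s T n₀ r S μ κ x₀ ht hr h24 (by omega) hs4 hT2 hT3 hn1 hrn₀ hC
  have hT0 : 0 < T := by omega
  have hQ0 : 0 < ∏ l ∈ S, l := Finset.prod_pos fun l hl => (hC.Sp l hl).1.pos
  have h3m : (3 : ℕ) ∣ 2 ^ s * T * ∏ l ∈ S, l := (hT3.mul_left _).mul_right _
  refine ⟨s, ∏ l ∈ S, l, 2 ^ s * T * ∏ l ∈ S, l, μ, κ, 2 * T,
    fun u => if u.Coprime 6 then
      rz r t ((((∏ l ∈ S, l : ℕ) : ℤ) * κ * ((μ : ℤ) - 2 ^ s * (u : ℤ) ^ 2) + 1) / 24) else 0,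
    fun u => rz r t (((((∏ l ∈ S, l : ℕ) : ℤ) * κ - 2 ^ s * (u : ℤ) ^ 2) * μ + 1) / 24),
    ?_⟩
  refine
    { s4 := hs4
      Q1 := hQ0
      m0 := by positivity
      m6 := ?_
      Qm := dvd_mul_left _ _
      Q6 := ?_
      μm := hC.μm
      κm := hC.κm
      D0 := by omega
      fil := ?_
      k3 := ?_
      cop := ?_
      lft := ?_
      rgt := ?_
      gD := ?_
      g0 := ?_
      g1 := ?_ }
  · have h2 : (2 : ℕ) ∣ 2 ^ s * T * ∏ l ∈ S, l :=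
      ((dvd_pow_self 2 (by omega : s ≠ 0)).mul_right _).mul_right _
    exact (Nat.Coprime.mul_dvd_of_dvd_of_dvd (by norm_num : Nat.Coprime 2 3) h2 h3m)
  · refine Nat.Coprime.prod_left fun l hl => ?_
    have h5 := (hC.Sp l hl).2.1
    have hp := (hC.Sp l hl).1
    refine (Nat.Prime.coprime_iff_not_dvd hp).2 fun h => ?_
    have := Nat.le_of_dvd (by norm_num) h
    interval_cases l
    · omega
    · exact absurd hp (by norm_num)
  · intro p hp h5 hpQ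
    have hpS : p ∉ S := fun h => hpQ (Finset.dvd_prod_of_mem (fun l => l) h)
    obtain ⟨f, hf, hfc⟩ := hKWD (insert p S) (fun l hl => by
      rcases Finset.mem_insert.1 hl with rfl | hl
      · exact ⟨hp, h5⟩
      · exact ⟨(hC.Sp l hl).1, (hC.Sp l hl).2.1⟩)
    rw [Finset.prod_insert hpS, Nat.mul_comm] at hf hfc
    refine ⟨f, DAT_WC ?_ hf, hfc⟩
    have h1 : #S ≤ #{l ∈ insert p S | l % 24 ≠ 1} := by
      refine Finset.card_le_card fun l hl => ?_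
      exact Finset.mem_filter.2 ⟨Finset.mem_insert_of_mem hl, (hC.Sp l hl).2.2.1⟩
    have h2 := hC.card
    omega
  · intro p hp
    have h1 : p % 3 = κ % 3 := by
      have h4 : p ≡ κ [MOD 2 ^ s * T * ∏ l ∈ S, l] := hp
      exact h4.of_dvd h3m
    have h2 : (∏ l ∈ S, l) * κ ≡ 2 * 2 ^ s [MOD 3] := hC.kT.of_dvd hT3
    have h3 : (∏ l ∈ S, l) * p ≡ 2 * 2 ^ s [MOD 3] := (Nat.ModEq.mul_left _ (show p ≡ κ [MOD 3] from h1)).trans h2
    have h5 : ((∏ l ∈ S, l) * p + 2 ^ (s + 1)) % 3 = (2 * 2 ^ s + 2 ^ (s + 1)) % 3 := h3.add_right _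
    rw [h5]
    have h6 : 2 * 2 ^ s + 2 ^ (s + 1) = 2 ^ s * 4 := by ring
    rw [h6]
    intro h0
    have h7 : 3 ∣ 2 ^ s * 4 := Nat.dvd_of_mod_eq_zero h0
    have h8 : 3 ∣ 2 ^ (s + 2) := by
      have : 2 ^ (s + 2) = 2 ^ s * 4 := by ring
      rw [this]
      exact h7
    have h9 := (Nat.Prime.dvd_of_dvd_pow (by norm_num : Nat.Prime 3) h8)
    omega
  · intro M u hM hlt
    refine Nat.Coprime.prod_left fun l hl => ?_
    refine (Nat.Prime.coprime_iff_not_dvd (hC.Sp l hl).1).2 fun h => ?_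
    refine hC.Ml l hl u ?_
    have h1 : M ≡ μ [MOD l] := by
      have h4 : M ≡ μ [MOD 2 ^ s * T * ∏ l ∈ S, l] := hM
      exact h4.of_dvd ((Finset.dvd_prod_of_mem (fun l => l) hl).mul_left _)
    have h2 : 2 ^ s * u ^ 2 ≡ M [MOD l] := (Nat.modEq_iff_dvd' hlt.le).2 h
    exact (h2.trans h1).symm
  · intro M p u hM hp hu hlt
    obtain ⟨n', h1, h2, h3⟩ := hL M p u hM hp hu hlt
    refine ⟨n', h1, h2.trans hni, ?_⟩
    rw [if_pos hu]
    exact h3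
  · intro M p u hM hp hu hlt
    obtain ⟨n', h1, h2, h3⟩ := hR M p u hM hp hu hlt
    exact ⟨n', h1, h2.trans hni, h3⟩
  · intro u
    by_cases hu : u.Coprime 6
    · have hu' := (DAT_cop6 T u hT3).2 hu
      show (if (u + 2 * T).Coprime 6 then _ else _) = (if u.Coprime 6 then _ else _)
      rw [if_pos hu, if_pos hu']
      exact hP u hu
    · have hu' : ¬ (u + 2 * T).Coprime 6 := fun h => hu ((DAT_cop6 T u hT3).1 h)
      show (if (u + 2 * T).Coprime 6 then _ else _) = (if u.Coprime 6 then _ else _)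
      rw [if_neg hu, if_neg hu']
  · intro u hu
    exact if_neg hu
  · refine ⟨x₀, ?_⟩
    show (if x₀.Coprime 6 then _ else _) = (1 : ZMod 2)
    rw [if_pos hC.x6]
    exact hV

end Pool.Agent.TPC
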