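import Pool.Agent.helper67.TPC.Spec

/-!
# Project tpc (MP_ebc808_nt), row GPR: the function `g` has the period `2 T` and the value `1` at `x₀`
-/

set_option autoImplicit false

open Finset PowerSeries

noncomputable section

namespace Pool.Agent.TPC

open Pool.Agent.EP

theorem GPR_rz (r : ℕ → ZMod 2) (t : ℕ) (z z' : ℤ) (h : (t : ℤ) ∣ z - z') : rz r t z = rz r t z' := by
  unfold rz
  have h1 : z % t = z' % t := ((Int.modEq_iff_dvd.2 h : z' ≡ z [ZMOD t])).symm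
  rw [h1]

theorem GPR_div (t : ℕ) (N N' : ℤ) (h : (24 * (t : ℤ)) ∣ N - N') (h24 : (24 : ℤ) ∣ N' + 1) :
    (t : ℤ) ∣ (N + 1) / 24 - (N' + 1) / 24 := by
  obtain ⟨c, hc⟩ := h
  obtain ⟨a, ha⟩ := h24
  have h1 : N + 1 = 24 * (a + t * c) := by linarith
  rw [h1, ha, Int.mul_ediv_cancel_left _ (by norm_num), Int.mul_ediv_cancel_left _ (by norm_num)]
  exact ⟨c, by ring⟩

theorem GPR_sq3 (x : ℕ) (h : x.Coprime 6) : (3 : ℤ) ∣ (x : ℤ) ^ 2 - 1 := by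
  have h3 : x % 3 ≠ 0 := by
    intro h0
    have h1 : 3 ∣ Nat.gcd x 6 := Nat.dvd_gcd (Nat.dvd_of_mod_eq_zero h0) (by norm_num)
    rw [h] at h1
    omega
  have h4 : x % 3 = 1 ∨ x % 3 = 2 := by omega
  rcases h4 with h4 | h4
  · obtain ⟨q, hq⟩ : ∃ q : ℤ, (x : ℤ) = 3 * q + 1 := ⟨(x / 3 : ℕ), by omega⟩
    exact ⟨3 * q ^ 2 + 2 * q, by rw [hq]; ring⟩
  · obtain ⟨q, hq⟩ : ∃ q : ℤ, (x : ℤ) = 3 * q + 2 := ⟨(x / 3 : ℕ), by omega⟩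
    exact ⟨3 * q ^ 2 + 4 * q + 1, by rw [hq]; ring⟩

/-- the number is `N₀` modulo `2^s` -/
theorem GPR_two (s T n₀ : ℕ) (S : Finset ℕ) (μ κ x₀ : ℕ) (hn : 1 ≤ n₀) (hC : Cls s T (24 * n₀ - 1) S μ κ x₀)
    (u : ℤ) : (2 : ℤ) ^ s ∣ ((∏ l ∈ S, l : ℕ) : ℤ) * κ * ((μ : ℤ) - 2 ^ s * u ^ 2) - (24 * n₀ - 1) := by
  have h1 : (2 : ℤ) ^ s ∣ ((∏ l ∈ S, l : ℕ) : ℤ) * κ - 1 := by
    have := (Nat.modEq_iff_dvd.1 hC.k2.symm)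
    push_cast at this ⊢
    exact this
  have h2 : (2 : ℤ) ^ s ∣ (μ : ℤ) - (24 * n₀ - 1) := by
    have := (Nat.modEq_iff_dvd.1 hC.M2.symm)
    push_cast [Nat.cast_sub (show 1 ≤ 24 * n₀ by omega)] at this ⊢
    exact this
  have e : ((∏ l ∈ S, l : ℕ) : ℤ) * κ * ((μ : ℤ) - 2 ^ s * u ^ 2) - (24 * n₀ - 1) =
      (((∏ l ∈ S, l : ℕ) : ℤ) * κ - 1) * μ + ((μ : ℤ) - (24 * n₀ - 1)) -
        2 ^ s * (((∏ l ∈ S, l : ℕ) : ℤ) * κ * u ^ 2) := by ring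
  rw [e]
  exact dvd_sub (dvd_add (h1.mul_right _) h2) (dvd_mul_right _ _)

theorem GPR_T (s T n₀ : ℕ) (S : Finset ℕ) (μ κ x₀ : ℕ) (hn : 1 ≤ n₀) (hC : Cls s T (24 * n₀ - 1) S μ κ x₀) :
    (T : ℤ) ∣ ((∏ l ∈ S, l : ℕ) : ℤ) * κ * ((μ : ℤ) - 2 ^ s * (x₀ : ℤ) ^ 2) - (24 * n₀ - 1) := by
  have h1 := (Nat.modEq_iff_dvd.1 hC.MT.symm)
  push_cast [Nat.cast_sub (show 1 ≤ 24 * n₀ by omega)] at h1 ⊢
  have e : (∏ l ∈ S, (l : ℤ)) * κ * ((μ : ℤ) - 2 ^ s * (x₀ : ℤ) ^ 2) - (24 * n₀ - 1) =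
      (∏ l ∈ S, (l : ℤ)) * κ * μ - ((24 * n₀ - 1) + (∏ l ∈ S, (l : ℤ)) * κ * (2 ^ s * (x₀ : ℤ) ^ 2)) := by ring
  rw [e]
  exact h1

theorem GPR_24 (s T n₀ : ℕ) (S : Finset ℕ) (μ κ x₀ : ℕ) (hs : 4 ≤ s) (hT3 : 3 ∣ T) (hn : 1 ≤ n₀)
    (hC : Cls s T (24 * n₀ - 1) S μ κ x₀) (u : ℕ) (hu : u.Coprime 6) :
    (24 : ℤ) ∣ ((∏ l ∈ S, l : ℕ) : ℤ) * κ * ((μ : ℤ) - 2 ^ s * (u : ℤ) ^ 2) + 1 := by
  have h2 := GPR_two s T n₀ S μ κ x₀ hn hC u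
  have h8 : (8 : ℤ) ∣ ((∏ l ∈ S, l : ℕ) : ℤ) * κ * ((μ : ℤ) - 2 ^ s * (u : ℤ) ^ 2) - (24 * n₀ - 1) := by
    refine dvd_trans ?_ h2
    have : (8 : ℤ) = 2 ^ 3 := by norm_num
    rw [this]
    exact pow_dvd_pow 2 (by omega)
  have hT := GPR_T s T n₀ S μ κ x₀ hn hC
  have h3 : (3 : ℤ) ∣ ((∏ l ∈ S, l : ℕ) : ℤ) * κ * ((μ : ℤ) - 2 ^ s * (u : ℤ) ^ 2) - (24 * n₀ - 1) := by
    have hT' := dvd_trans (Int.natCast_dvd_natCast.2 hT3) hT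
    have e : ((∏ l ∈ S, l : ℕ) : ℤ) * κ * ((μ : ℤ) - 2 ^ s * (u : ℤ) ^ 2) - (24 * n₀ - 1) =
        (((∏ l ∈ S, l : ℕ) : ℤ) * κ * ((μ : ℤ) - 2 ^ s * (x₀ : ℤ) ^ 2) - (24 * n₀ - 1)) +
          ((((x₀ : ℤ) ^ 2 - 1) - ((u : ℤ) ^ 2 - 1)) * (((∏ l ∈ S, l : ℕ) : ℤ) * κ * 2 ^ s)) := by ring
    rw [e]
    exact dvd_add hT' ((dvd_sub (GPR_sq3 x₀ hC.x6) (GPR_sq3 u hu)).mul_right _)
  generalize ((∏ l ∈ S, l : ℕ) : ℤ) * κ * ((μ : ℤ) - 2 ^ s * (u : ℤ) ^ 2) = N at h8 h3 ⊢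
  omega

theorem GPR_per (t : ℕ) (r : ℕ → ZMod 2) (hr : ∀ n, r (n + t) = r n) (n : ℕ) : ∀ k, r (n + t * k) = r n
  | 0 => rfl
  | k + 1 => by
    have : n + t * (k + 1) = (n + t * k) + t := by ring
    rw [this, hr, GPR_per t r hr n k]

theorem GPR : GPR_stmt := by
  intro t e s T n₀ r S μ κ x₀ ht hr h24 hes hs hT2 hT3 hn hrn hC
  have hd : (24 * (t : ℤ)) ∣ 2 ^ s * (T : ℤ) := by
    have h1 : 24 * t ∣ 2 ^ s * T := by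
      rw [h24]
      exact Nat.mul_dvd_mul_right (pow_dvd_pow 2 hes) T
    have h2 := Int.natCast_dvd_natCast.2 h1
    push_cast at h2
    exact h2
  refine ⟨fun u hu => ?_, ?_⟩
  · refine GPR_rz r t _ _ (GPR_div t _ _ (dvd_trans hd ?_) (GPR_24 s T n₀ S μ κ x₀ hs hT3 hn hC u hu))
    push_cast
    exact ⟨-((∏ l ∈ S, (l : ℤ)) * κ * (4 * (u + T))), by ring⟩
  · have h1 : (24 * (t : ℤ)) ∣ ((∏ l ∈ S, l : ℕ) : ℤ) * κ * ((μ : ℤ) - 2 ^ s * (x₀ : ℤ) ^ 2) - (24 * n₀ - 1) := by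
      refine dvd_trans hd ?_
      refine IsCoprime.mul_dvd ?_ (GPR_two s T n₀ S μ κ x₀ hn hC x₀) (GPR_T s T n₀ S μ κ x₀ hn hC)
      have hcop : Nat.Coprime (2 ^ s) T := Nat.Coprime.pow_left s ((Nat.coprime_two_left).2 (Nat.odd_iff.2 hT2))
      have := Nat.isCoprime_iff_coprime.2 hcop
      push_cast at this
      exact this
    have h2 := GPR_div t _ _ h1 ⟨n₀, by ring⟩
    have h3 : ((24 * (n₀ : ℤ) - 1) + 1) / 24 = n₀ := by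
      have : (24 * (n₀ : ℤ) - 1) + 1 = 24 * n₀ := by ring
      rw [this]
      exact Int.mul_ediv_cancel_left _ (by norm_num)
    rw [h3] at h2
    rw [GPR_rz r t _ _ h2]
    unfold rz
    have h4 : (((n₀ : ℤ) % t).toNat) = n₀ % t := by
      rw [← Int.natCast_mod, Int.toNat_natCast]
    rw [h4, ← GPR_per t r hr (n₀ % t) (n₀ / t), Nat.mod_add_div]
    exact hrn

end Pool.Agent.TPC
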