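import Pool.Agent.helper67.TPC.SpecW
import Pool.Agent.helper52.FJ.GPT

/-!
# Project tpc (MP_ebc808_nt), row W1: primes of a class in a set of cells
-/

set_option autoImplicit false

open Finset

noncomputable section

namespace Pool.Agent.TPC

open Pool.Agent.FJ (cl gp PSI_stmt GPT_stmt)
open ArithmeticFunction (vonMangoldt vonMangoldt_nonneg)

/-- the contribution of the non-primes -/
theorem W1_np (x : ℕ) (hx : 1 ≤ x) (L : Finset ℤ) (hL : ∀ l ∈ L, (x : ℤ) < l ∧ l ≤ 2 * x)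
    (hp : ∀ l ∈ L, ¬ l.toNat.Prime) :
    ∑ l ∈ L, vonMangoldt l.toNat ≤ 2 * √(2 * x) * Real.log (2 * x) := by
  have hinj : Set.InjOn Int.toNat (L : Set ℤ) := by
    intro a ha b hb hab
    have h1 := (hL a ha).1
    have h2 := (hL b hb).1
    omega
  have hs : ∑ l ∈ L, vonMangoldt l.toNat = ∑ n ∈ L.image Int.toNat, vonMangoldt n :=
    (Finset.sum_image hinj).symm
  have hx1 : (1 : ℝ) ≤ 2 * (x : ℝ) := by
    have : (1 : ℝ) ≤ x := by exact_mod_cast hx
    linarith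
  have h1 := Chebyshev.psi_sub_theta_le hx1
  rw [Chebyshev.psi_sub_theta_eq_sum_not_prime] at h1
  rw [hs]
  refine le_trans ?_ h1
  have hfl : ⌊2 * (x : ℝ)⌋₊ = 2 * x := by exact_mod_cast Nat.floor_natCast (R := ℝ) (2 * x)
  rw [hfl]
  refine Finset.sum_le_sum_of_subset_of_nonneg ?_ (fun n _ _ => vonMangoldt_nonneg)
  intro n hn
  obtain ⟨l, hl, rfl⟩ := Finset.mem_image.1 hn
  have h2 := hL l hl
  exact Finset.mem_filter.2 ⟨Finset.mem_Ioc.2 ⟨by omega, by omega⟩, hp l hl⟩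

/-- Cauchy-Schwarz -/
theorem W1_cs (a : ℕ → ℂ) (K : ℕ) (hK : 1 ≤ K) (I : Finset ℕ) (hI : I ⊆ range K) (X Y : ℝ) (hX : 0 ≤ X)
    (hY : 0 < Y) (h : ∑ i ∈ range K, ‖a i‖ ^ 2 ≤ X ^ 2 / (K * Y ^ 2)) : ‖∑ i ∈ I, a i‖ ≤ X / Y := by
  have hK' : (0 : ℝ) < K := by exact_mod_cast hK
  have h1 : (∑ i ∈ I, ‖a i‖) ^ 2 ≤ (#I : ℝ) * ∑ i ∈ I, ‖a i‖ ^ 2 := sq_sum_le_card_mul_sum_sq
  have h2 : ∑ i ∈ I, ‖a i‖ ^ 2 ≤ ∑ i ∈ range K, ‖a i‖ ^ 2 :=
    Finset.sum_le_sum_of_subset_of_nonneg hI fun i _ _ => by positivity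
  have h3 : (#I : ℝ) ≤ K := by
    have := Finset.card_le_card hI
    rw [Finset.card_range] at this
    exact_mod_cast this
  have h4 : (∑ i ∈ I, ‖a i‖) ^ 2 ≤ (X / Y) ^ 2 := by
    calc (∑ i ∈ I, ‖a i‖) ^ 2 ≤ (#I : ℝ) * ∑ i ∈ I, ‖a i‖ ^ 2 := h1
      _ ≤ K * (X ^ 2 / (K * Y ^ 2)) :=
        mul_le_mul h3 (h2.trans h) (Finset.sum_nonneg fun i _ => by positivity) hK'.le
      _ = (X / Y) ^ 2 := by
        field_simp
  have h5 : ∑ i ∈ I, ‖a i‖ ≤ X / Y :=
    (sq_le_sq₀ (Finset.sum_nonneg fun i _ => norm_nonneg _) (div_nonneg hX hY.le)).1 h4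
  exact (norm_sum_le _ _).trans h5

/-- the sum over a character against the sum over its primitive character -/
theorem W1_chi (m : ℕ) [NeZero m] (χ : DirichletCharacter ℂ m) (x : ℕ) (hx : 1 ≤ x) (hmx : m ≤ x) (L : Finset ℤ)
    (hL : ∀ l ∈ L, (x : ℤ) < l ∧ l ≤ 2 * x) :
    ‖(∑ l ∈ L, (vonMangoldt l.toNat : ℂ) * χ (l : ZMod m)) - (if χ.conductor = 1 then 1 else 0) * (#L : ℂ) -
      ∑ l ∈ L, ((vonMangoldt l.toNat : ℂ) - (if χ.conductor = 1 then 1 else 0)) *
        χ.primitiveCharacter (l : ZMod χ.conductor)‖ ≤ 2 * √(2 * x) * Real.log (2 * x) := by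
  classical
  have e1 : (∑ l ∈ L, (vonMangoldt l.toNat : ℂ) * χ (l : ZMod m)) -
      (if χ.conductor = 1 then 1 else 0) * (#L : ℂ) -
      ∑ l ∈ L, ((vonMangoldt l.toNat : ℂ) - (if χ.conductor = 1 then 1 else 0)) *
        χ.primitiveCharacter (l : ZMod χ.conductor) =
      ∑ l ∈ L, (vonMangoldt l.toNat : ℂ) * (χ (l : ZMod m) - χ.primitiveCharacter (l : ZMod χ.conductor)) := by
    have e2 : (if χ.conductor = 1 then 1 else 0) * (#L : ℂ) =
        ∑ l ∈ L, (if χ.conductor = 1 then (1 : ℂ) else 0) * χ.primitiveCharacter (l : ZMod χ.conductor) := by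
      by_cases hq : χ.conductor = 1
      · have h1 : ∀ l : ℤ, χ.primitiveCharacter (l : ZMod χ.conductor) = 1 := by
          intro l
          have h2 : χ.primitiveCharacter = 1 := DirichletCharacter.level_one' _ hq
          rw [h2]
          have hu : IsUnit ((l : ℤ) : ZMod χ.conductor) := by
            have hsub : Subsingleton (ZMod χ.conductor) := by
              rw [hq]
              infer_instance
            exact isUnit_of_subsingleton _
          exact MulChar.one_apply hu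
        rw [if_pos hq]
        simp only [h1, mul_one, one_mul]
        rw [Finset.sum_const, nsmul_eq_mul, mul_one]
      · rw [if_neg hq]
        simp
    rw [e2, ← Finset.sum_sub_distrib, ← Finset.sum_sub_distrib]
    refine Finset.sum_congr rfl fun l _ => ?_
    ring
  rw [e1]
  refine le_trans (norm_sum_le _ _) ?_
  have h2 : ∀ l ∈ L, ‖(vonMangoldt l.toNat : ℂ) * (χ (l : ZMod m) - χ.primitiveCharacter (l : ZMod χ.conductor))‖ ≤
      if IsCoprime l (m : ℤ) then 0 else vonMangoldt l.toNat := by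
    intro l _
    by_cases hc : IsCoprime l (m : ℤ)
    · rw [if_pos hc, DirichletCharacter.primitiveCharacter_apply_of_isCoprime χ hc, sub_self, mul_zero, norm_zero]
    · rw [if_neg hc, (DirichletCharacter.apply_eq_zero_iff χ l).2 hc, zero_sub, norm_mul, norm_neg,
        Complex.norm_real, Real.norm_of_nonneg vonMangoldt_nonneg]
      exact mul_le_of_le_one_right vonMangoldt_nonneg (DirichletCharacter.norm_le_one _ _)
  refine le_trans (Finset.sum_le_sum h2) ?_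
  have h3 : ∑ l ∈ L, (if IsCoprime l (m : ℤ) then 0 else vonMangoldt l.toNat) =
      ∑ l ∈ L with ¬ IsCoprime l (m : ℤ), vonMangoldt l.toNat := by
    rw [Finset.sum_filter]
    refine Finset.sum_congr rfl fun l _ => ?_
    by_cases hc : IsCoprime l (m : ℤ)
    · simp [hc]
    · simp [hc]
  rw [h3]
  refine W1_np x hx _ (fun l hl => hL l (Finset.mem_filter.1 hl).1) fun l hl hp => ?_
  obtain ⟨hlL, hc⟩ := Finset.mem_filter.1 hl
  have h4 := hL l hlL
  have h5 : l = (l.toNat : ℤ) := by omega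
  apply hc
  rw [h5, Nat.isCoprime_iff_coprime]
  refine (Nat.Prime.coprime_iff_not_dvd hp).2 fun hd => ?_
  have := Nat.le_of_dvd (Nat.pos_of_ne_zero (NeZero.ne m)) hd
  omega

/-- orthogonality -/
theorem W1_orth (m μ : ℕ) [NeZero m] (hμ : μ.Coprime m) (L : Finset ℤ) :
    ((m.totient : ℂ) * ∑ l ∈ L.filter (fun l : ℤ => (l : ZMod m) = (μ : ZMod m)), (vonMangoldt l.toNat : ℂ)) =
      ∑ χ : DirichletCharacter ℂ m, χ (μ : ZMod m)⁻¹ * ∑ l ∈ L, (vonMangoldt l.toNat : ℂ) * χ (l : ZMod m) := by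
  have hu : IsUnit (μ : ZMod m) := (ZMod.isUnit_iff_coprime μ m).2 hμ
  have h1 : ∀ χ : DirichletCharacter ℂ m, χ (μ : ZMod m)⁻¹ * ∑ l ∈ L, (vonMangoldt l.toNat : ℂ) * χ (l : ZMod m) =
      ∑ l ∈ L, (vonMangoldt l.toNat : ℂ) * (χ (μ : ZMod m)⁻¹ * χ (l : ZMod m)) := by
    intro χ
    rw [Finset.mul_sum]
    refine Finset.sum_congr rfl fun l _ => ?_
    ring
  simp only [h1]
  rw [Finset.sum_comm]
  simp only [← Finset.mul_sum, DirichletCharacter.sum_char_inv_mul_char_eq ℂ hu]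
  rw [Finset.sum_filter, Finset.mul_sum]
  refine Finset.sum_congr rfl fun l _ => ?_
  by_cases h : (μ : ZMod m) = (l : ZMod m)
  · rw [if_pos h, if_pos h.symm, mul_comm]
  · rw [if_neg h, if_neg (Ne.symm h), mul_zero, mul_zero]

/-- the sum over a class -/
theorem W1_sum (m μ : ℕ) [NeZero m] (hμ : μ.Coprime m) (x : ℕ) (hx : 1 ≤ x) (hmx : m ≤ x) (L : Finset ℤ)
    (hL : ∀ l ∈ L, (x : ℤ) < l ∧ l ≤ 2 * x) (E : ℝ)
    (hE : ∀ χ : DirichletCharacter ℂ m, ‖∑ l ∈ L, ((vonMangoldt l.toNat : ℂ) - (if χ.conductor = 1 then 1 else 0)) *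
        χ.primitiveCharacter (l : ZMod χ.conductor)‖ ≤ E) :
    (#L : ℝ) - m.totient * (E + 2 * √(2 * x) * Real.log (2 * x)) ≤
      m.totient * ∑ l ∈ L.filter (fun l : ℤ => (l : ZMod m) = (μ : ZMod m)), vonMangoldt l.toNat := by
  have ho := W1_orth m μ hμ L
  have hu : IsUnit ((μ : ZMod m)⁻¹) := by
    have hu : IsUnit (μ : ZMod m) := (ZMod.isUnit_iff_coprime μ m).2 hμ
    exact IsUnit.of_mul_eq_one _ (ZMod.inv_mul_of_unit _ hu)
  have h1 : ∑ χ : DirichletCharacter ℂ m, χ (μ : ZMod m)⁻¹ * ((if χ.conductor = 1 then 1 else 0) * (#L : ℂ)) =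
      (#L : ℂ) := by
    have h2 : ∀ χ : DirichletCharacter ℂ m, χ (μ : ZMod m)⁻¹ * ((if χ.conductor = 1 then 1 else 0) * (#L : ℂ)) =
        if χ = 1 then (#L : ℂ) else 0 := by
      intro χ
      by_cases hχ : χ = 1
      · rw [if_pos hχ, if_pos ((DirichletCharacter.eq_one_iff_conductor_eq_one (χ := χ)).1 hχ), hχ,
          MulChar.one_apply hu, one_mul, one_mul]
      · rw [if_neg hχ, if_neg (fun h => hχ ((DirichletCharacter.eq_one_iff_conductor_eq_one (χ := χ)).2 h)), zero_mul,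
          mul_zero]
    simp only [h2]
    rw [Finset.sum_ite_eq' Finset.univ (1 : DirichletCharacter ℂ m) (fun _ => (#L : ℂ)), if_pos (Finset.mem_univ _)]
  have h3 : ‖((m.totient : ℂ) * ∑ l ∈ L.filter (fun l : ℤ => (l : ZMod m) = (μ : ZMod m)),
      (vonMangoldt l.toNat : ℂ)) - (#L : ℂ)‖ ≤ m.totient * (E + 2 * √(2 * x) * Real.log (2 * x)) := by
    rw [ho, ← h1, ← Finset.sum_sub_distrib]
    have h4 : ∀ χ ∈ (Finset.univ : Finset (DirichletCharacter ℂ m)),
        ‖χ (μ : ZMod m)⁻¹ * ∑ l ∈ L, (vonMangoldt l.toNat : ℂ) * χ (l : ZMod m) -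
          χ (μ : ZMod m)⁻¹ * ((if χ.conductor = 1 then 1 else 0) * (#L : ℂ))‖ ≤
          E + 2 * √(2 * x) * Real.log (2 * x) := by
      intro χ _
      rw [← mul_sub, norm_mul]
      have h5 := W1_chi m χ x hx hmx L hL
      have h6 := hE χ
      have h7 : ‖(∑ l ∈ L, (vonMangoldt l.toNat : ℂ) * χ (l : ZMod m)) -
          (if χ.conductor = 1 then 1 else 0) * (#L : ℂ)‖ ≤ E + 2 * √(2 * x) * Real.log (2 * x) := by
        have h8 := norm_add_le ((∑ l ∈ L, (vonMangoldt l.toNat : ℂ) * χ (l : ZMod m)) -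
          (if χ.conductor = 1 then 1 else 0) * (#L : ℂ) -
          ∑ l ∈ L, ((vonMangoldt l.toNat : ℂ) - (if χ.conductor = 1 then 1 else 0)) *
          χ.primitiveCharacter (l : ZMod χ.conductor))
          (∑ l ∈ L, ((vonMangoldt l.toNat : ℂ) - (if χ.conductor = 1 then 1 else 0)) *
          χ.primitiveCharacter (l : ZMod χ.conductor))
        rw [sub_add_cancel] at h8
        linarith
      have h9 : ‖χ (μ : ZMod m)⁻¹‖ ≤ 1 := DirichletCharacter.norm_le_one _ _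
      calc _ ≤ 1 * ‖(∑ l ∈ L, (vonMangoldt l.toNat : ℂ) * χ (l : ZMod m)) -
          (if χ.conductor = 1 then 1 else 0) * (#L : ℂ)‖ := mul_le_mul_of_nonneg_right h9 (norm_nonneg _)
        _ ≤ _ := by rw [one_mul]; exact h7
    refine le_trans (norm_sum_le_of_le _ h4) ?_
    rw [Finset.sum_const, nsmul_eq_mul]
    have h10 : (#(Finset.univ : Finset (DirichletCharacter ℂ m)) : ℝ) = m.totient := by
      rw [Finset.card_univ, ← Nat.card_eq_fintype_card,
        DirichletCharacter.card_eq_totient_of_hasEnoughRootsOfUnity ℂ m]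
    rw [h10]
  have h11 : ((m.totient : ℂ) * ∑ l ∈ L.filter (fun l : ℤ => (l : ZMod m) = (μ : ZMod m)),
      (vonMangoldt l.toNat : ℂ)) - (#L : ℂ) =
      (((m.totient : ℝ) * ∑ l ∈ L.filter (fun l : ℤ => (l : ZMod m) = (μ : ZMod m)),
      vonMangoldt l.toNat - (#L : ℝ) : ℝ) : ℂ) := by
    push_cast
    ring
  rw [h11, Complex.norm_real, Real.norm_eq_abs] at h3
  have := (abs_le.1 h3).1
  linarith

/-- primes and non-primes -/
theorem W1_cnt (x : ℕ) (hx : 1 ≤ x) (L : Finset ℤ) (hL : ∀ l ∈ L, (x : ℤ) < l ∧ l ≤ 2 * x) :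
    ∑ l ∈ L, vonMangoldt l.toNat ≤ (#(L.filter fun l : ℤ => l.toNat.Prime) : ℝ) * Real.log (2 * x) +
      2 * √(2 * x) * Real.log (2 * x) := by
  rw [← Finset.sum_filter_add_sum_filter_not L (fun l : ℤ => l.toNat.Prime)]
  refine add_le_add ?_ ?_
  · rw [← nsmul_eq_mul]
    refine Finset.sum_le_card_nsmul _ _ _ fun l hl => ?_
    obtain ⟨hlL, hp⟩ := Finset.mem_filter.1 hl
    have h1 := hL l hlL
    rw [ArithmeticFunction.vonMangoldt_apply_prime hp]
    refine Real.log_le_log (by exact_mod_cast hp.pos) ?_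
    have : l.toNat ≤ 2 * x := by omega
    exact_mod_cast this
  · exact W1_np x hx _ (fun l hl => hL l (Finset.mem_filter.1 hl).1) fun l hl => (Finset.mem_filter.1 hl).2

/-- the sizes -/
theorem W1_ev (m : ℕ) (hm : 0 < m) (δ : ℝ) (hδ : 0 < δ) : ∀ᶠ x : ℕ in Filter.atTop,
    1 ≤ x ∧ m ≤ x ∧ (m : ℝ) ≤ Real.log x ∧ 0 < Real.log x ∧ Real.log (2 * x) ≤ 4 / 3 * Real.log x ∧
    (x : ℝ) / Real.log x ^ 2 + 2 * (2 * √(2 * x) * Real.log (2 * x)) ≤ δ * x / (3 * m) := by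
  have hm' : (0 : ℝ) < m := by exact_mod_cast hm
  have hlog : Filter.Tendsto (fun x : ℕ => Real.log (x : ℝ)) Filter.atTop Filter.atTop :=
    Real.tendsto_log_atTop.comp tendsto_natCast_atTop_atTop
  have h2x : Filter.Tendsto (fun x : ℕ => 2 * (x : ℝ)) Filter.atTop Filter.atTop :=
    Filter.Tendsto.const_mul_atTop (by norm_num) tendsto_natCast_atTop_atTop
  have h1 : ∀ᶠ y : ℝ in Filter.atTop, ‖Real.log y‖ ≤ δ / (48 * m) * ‖y ^ (1 / 2 : ℝ)‖ :=
    (isLittleO_log_rpow_atTop (by norm_num : (0 : ℝ) < 1 / 2)).bound (by positivity)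
  filter_upwards [Filter.eventually_ge_atTop 1, Filter.eventually_ge_atTop m,
    hlog.eventually_ge_atTop (m : ℝ), hlog.eventually_ge_atTop (3 * Real.log 2 + 1),
    hlog.eventually_ge_atTop (6 * m / δ + 1), h2x.eventually h1] with x hx1 hx2 hx3 hx4 hx5 hx6
  have hx' : (0 : ℝ) < x := by exact_mod_cast hx1
  have hl2 : 0 < Real.log 2 := Real.log_pos (by norm_num)
  have hlx : 0 < Real.log x := by linarith
  refine ⟨hx1, hx2, hx3, hlx, ?_, ?_⟩
  · rw [Real.log_mul (by norm_num) hx'.ne']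
    linarith
  · have h2 : (x : ℝ) / Real.log x ^ 2 ≤ δ * x / (6 * m) := by
      have h3 : 6 * m / δ ≤ Real.log x ^ 2 := by
        have h4 : 0 ≤ 6 * m / δ := by positivity
        nlinarith
      rw [div_le_div_iff₀ (by positivity) (by positivity)]
      rw [div_le_iff₀ hδ] at h3
      nlinarith
    have h5 : 2 * (2 * √(2 * x) * Real.log (2 * x)) ≤ δ * x / (6 * m) := by
      have h6 : Real.log (2 * x) ≤ δ / (48 * m) * √(2 * x) := by
        rw [Real.sqrt_eq_rpow]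
        have h7 := (le_abs_self (Real.log (2 * x))).trans hx6
        rwa [Real.norm_of_nonneg (by positivity)] at h7
      have h8 : √(2 * (x : ℝ)) * √(2 * x) = 2 * x := Real.mul_self_sqrt (by positivity)
      have h9 : 0 ≤ √(2 * (x : ℝ)) := Real.sqrt_nonneg _
      calc 2 * (2 * √(2 * x) * Real.log (2 * x)) ≤ 2 * (2 * √(2 * x) * (δ / (48 * m) * √(2 * x))) := by gcongr
        _ = 4 * (δ / (48 * m)) * (√(2 * (x : ℝ)) * √(2 * x)) := by ring
        _ = δ * x / (6 * m) := by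
          rw [h8]
          field_simp
          norm_num
    have h10 : δ * x / (6 * m) + δ * x / (6 * m) = δ * x / (3 * m) := by
      field_simp
      norm_num
    linarith

theorem W1 (hPSI : PSI_stmt) : W1_stmt := by
  classical
  intro m μ hm hμ δ hδ
  have : NeZero m := ⟨hm.ne'⟩
  obtain ⟨x₁, hx₁⟩ := hPSI (1 / 15) (by norm_num) 4 1
  obtain ⟨x₂, hx₂⟩ := Filter.eventually_atTop.1 (W1_ev m hm δ hδ)
  refine ⟨max x₁ x₂, fun x hx K hK hKx I hI hδL => ?_⟩
  obtain ⟨hx1, hmx, hml, hlx, hl2, hsz⟩ := hx₂ x (le_trans (le_max_right _ _) hx)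
  have hm' : (0 : ℝ) < m := by exact_mod_cast hm
  have hx' : (0 : ℝ) < x := by exact_mod_cast hx1
  obtain ⟨-, -, -, -, -, hdis, hrange, -⟩ := Pool.Agent.FJ.GPT x K hx1 hK
  obtain ⟨L, hLdef⟩ : ∃ L : Finset ℤ, L = I.biUnion fun i => cl x K i := ⟨_, rfl⟩
  have hpd : (I : Set ℕ).PairwiseDisjoint fun i => cl x K i := by
    intro i _ j _ hij
    refine Finset.disjoint_left.2 fun l hl hl' => hij (hdis i j l hl hl')
  have hL : ∀ l ∈ L, (x : ℤ) < l ∧ l ≤ 2 * x := by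
    intro l hl
    rw [hLdef] at hl
    obtain ⟨i, hi, hli⟩ := Finset.mem_biUnion.1 hl
    exact hrange i (Finset.mem_range.1 (hI hi)) l hli
  have hcard : (#L : ℝ) = ∑ i ∈ I, (#(cl x K i) : ℝ) := by
    rw [hLdef, Finset.card_biUnion hpd]
    push_cast
    rfl
  have hE : ∀ χ : DirichletCharacter ℂ m, ‖∑ l ∈ L, ((vonMangoldt l.toNat : ℂ) -
      (if χ.conductor = 1 then 1 else 0)) * χ.primitiveCharacter (l : ZMod χ.conductor)‖ ≤
      x / Real.log x ^ 2 := by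
    intro χ
    rw [hLdef, Finset.sum_biUnion hpd]
    refine W1_cs _ K hK I hI x (Real.log x ^ 2) hx'.le (by positivity) ?_
    have h1 : 1 ≤ χ.conductor := Nat.one_le_iff_ne_zero.2 (DirichletCharacter.conductor_ne_zero χ)
    have h2 : χ.conductor ≤ m := Nat.le_of_dvd hm (DirichletCharacter.conductor_dvd_level χ)
    have h3 : ((χ.conductor : ℕ) : ℝ) ≤ Real.log x ^ 1 := by
      rw [pow_one]
      exact le_trans (by exact_mod_cast h2) hml
    have h4 : (K : ℝ) ≤ (x : ℝ) ^ ((2 : ℝ) / 3 - 1 / 15) := by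
      have : (2 : ℝ) / 3 - 1 / 15 = 3 / 5 := by norm_num
      rw [this]
      exact hKx
    have h5 := hx₁ x (le_trans (le_max_left _ _) hx) K hK h4 χ.conductor h1 h3 χ.primitiveCharacter
      (DirichletCharacter.primitiveCharacter_isPrimitive χ)
    have h6 : (Real.log x ^ 2) ^ 2 = Real.log x ^ 4 := by ring
    rw [h6]
    exact h5
  have hS := W1_sum m μ hμ x hx1 hmx L hL _ hE
  rw [hcard] at hS
  have hC := W1_cnt x hx1 (L.filter (fun l : ℤ => (l : ZMod m) = (μ : ZMod m)))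
    (fun l hl => hL l (Finset.mem_filter.1 hl).1)
  have hN : #((L.filter (fun l : ℤ => (l : ZMod m) = (μ : ZMod m))).filter fun l : ℤ => l.toNat.Prime) ≤
      #{M ∈ Ioc x (2 * x) | M.Prime ∧ M % m = μ % m ∧ ∃ i ∈ I, (M : ℤ) ∈ cl x K i} := by
    refine Finset.card_le_card_of_injOn Int.toNat ?_ ?_
    · intro l hl
      obtain ⟨hl1, hp⟩ := Finset.mem_filter.1 (Finset.mem_coe.1 hl)
      obtain ⟨hlL, hlμ⟩ := Finset.mem_filter.1 hl1
      have h1 := hL l hlL
      have h2 : ((l.toNat : ℕ) : ℤ) = l := by omega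
      refine Finset.mem_coe.2 (Finset.mem_filter.2 ⟨Finset.mem_Ioc.2 ⟨by omega, by omega⟩, hp, ?_, ?_⟩)
      · rw [← ZMod.natCast_eq_natCast_iff']
        rw [← hlμ]
        nth_rewrite 2 [← h2]
        rw [Int.cast_natCast]
      · rw [h2]
        rw [hLdef] at hlL
        exact Finset.mem_biUnion.1 hlL
    · intro a ha b hb hab
      have h1 := (hL a (Finset.mem_filter.1 (Finset.mem_filter.1 (Finset.mem_coe.1 ha)).1).1).1
      have h2 := (hL b (Finset.mem_filter.1 (Finset.mem_filter.1 (Finset.mem_coe.1 hb)).1).1).1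
      omega
  obtain ⟨N, hNdef⟩ : ∃ N : ℕ, N = #((L.filter (fun l : ℤ => (l : ZMod m) = (μ : ZMod m))).filter
    fun l : ℤ => l.toNat.Prime) := ⟨_, rfl⟩
  rw [← hNdef] at hC hN
  obtain ⟨Sg, hSg⟩ : ∃ Sg : ℝ, Sg = ∑ l ∈ L.filter (fun l : ℤ => (l : ZMod m) = (μ : ZMod m)),
    vonMangoldt l.toNat := ⟨_, rfl⟩
  rw [← hSg] at hS hC
  have hφ0 : (0 : ℝ) < m.totient := by exact_mod_cast Nat.totient_pos.2 hm
  have hφm : (m.totient : ℝ) ≤ m := by exact_mod_cast Nat.totient_le m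
  have h1 : δ * x / m ≤ Sg + (x / Real.log x ^ 2 + 2 * √(2 * x) * Real.log (2 * x)) := by
    have h2 : δ * x ≤ m.totient * (Sg + (x / Real.log x ^ 2 + 2 * √(2 * x) * Real.log (2 * x))) := by
      rw [mul_add]
      linarith
    have h3 : 0 ≤ Sg + (x / Real.log x ^ 2 + 2 * √(2 * x) * Real.log (2 * x)) := by
      by_contra hneg
      rw [not_le] at hneg
      have h4 : 0 < δ * x := by positivity
      nlinarith
    rw [div_le_iff₀ hm', mul_comm _ (m : ℝ)]
    exact h2.trans (mul_le_mul_of_nonneg_right hφm h3)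
  have hl2' : 0 < Real.log (2 * x) := by
    refine lt_of_lt_of_le hlx (Real.log_le_log hx' (by linarith))
  have h5 : 2 / 3 * (δ * x / m) ≤ N * Real.log (2 * x) := by
    have h6 : δ * x / (3 * m) = 1 / 3 * (δ * x / m) := by
      field_simp
    rw [h6] at hsz
    linarith
  have hN' : (N : ℝ) ≤ (#{M ∈ Ioc x (2 * x) | M.Prime ∧ M % m = μ % m ∧ ∃ i ∈ I, (M : ℤ) ∈ cl x K i} : ℝ) := by
    exact_mod_cast hN
  have h7 : 2 / 3 * (δ * x / m) ≤ N * (4 / 3 * Real.log x) :=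
    h5.trans (mul_le_mul_of_nonneg_left hl2 (Nat.cast_nonneg N))
  have h8 : δ / (2 * m) * x / Real.log x ≤ N := by
    rw [div_le_iff₀ hlx]
    have h9 : δ / (2 * m) * x = 3 / 4 * (2 / 3 * (δ * x / m)) := by
      field_simp
      norm_num
    rw [h9]
    linarith
  exact h8.trans hN'

end Pool.Agent.TPC
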